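import Pool.Agent.Work.MP_4c3a42_al.Main

/-!
Q1 of MP_4c3a42_al: over the complex numbers every tuple has a bounded image.
-/

namespace Pool.Agent.Results.MP_4c3a42_al.ComplexBounded

/-- For every `n ≥ 1` and every `x ∈ ℂⁿ` there is `y ∈ ℂⁿ` with `|y_i| ≤ 2^(2^(n-2))` satisfying
all the equations `x_i = 1`, `x_i + x_j = x_k`, `x_i x_j = x_k` that `x` satisfies. -/
theorem result (n : ℕ) (hn : 1 ≤ n) (x : Fin n → ℂ) :
    ∃ y : Fin n → ℂ,
      (∀ i, ‖y i‖ ≤ (2 : ℝ) ^ ((2 : ℝ) ^ ((n : ℝ) - 2))) ∧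
      (∀ i, x i = 1 → y i = 1) ∧
      (∀ i j k, x i + x j = x k → y i + y j = y k) ∧
      (∀ i j k, x i * x j = x k → y i * y j = y k) :=
  Pool.Agent.Tyz.bounded_image n hn x

end Pool.Agent.Results.MP_4c3a42_al.ComplexBounded
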